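import Pool.Agent.Y234.FP.Stm

/-!
# FP-SP: the ideal is generated by the relations
-/

set_option autoImplicit false

open MvPolynomial

namespace Pool.Agent.Y151.FP

open Pool.Agent.Y234.FP

universe u

section
variable {r : ℕ}

lemma yd_add (u v : Fin (r + 2) →₀ ℕ) : yd (u + v) = yd u + yd v := by
  unfold yd
  rw [← Finset.sum_add_distrib]
  rfl

lemma ax_add (u v : Fin (r + 2) →₀ ℕ) : ax (u + v) = ax u + ax v := by
  unfold ax
  rw [Finsupp.add_apply, Finsupp.add_apply]
  ring

lemma bx_add (u v : Fin (r + 2) →₀ ℕ) : bx (u + v) = bx u + bx v := by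
  unfold bx
  rw [yd_add, Finsupp.add_apply]
  ring

lemma yd_s0 (n : ℕ) : yd (Finsupp.single (0 : Fin (r + 2)) n) = 0 := by
  unfold yd
  apply Finset.sum_eq_zero
  intro i _
  rw [Finsupp.single_apply, if_neg (Fin.succ_ne_zero _).symm]

lemma yd_s1 (n : ℕ) : yd (Finsupp.single (1 : Fin (r + 2)) n) = 0 := by
  unfold yd
  apply Finset.sum_eq_zero
  intro i _
  have h : (1 : Fin (r + 2)) ≠ i.succ.succ := by
    rw [show (1 : Fin (r + 2)) = (0 : Fin (r + 1)).succ from rfl]
    intro h
    exact (Fin.succ_ne_zero i).symm (Fin.succ_injective _ h)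
  rw [Finsupp.single_apply, if_neg h]

lemma yd_s2 (i : Fin r) : yd (Finsupp.single (i.succ.succ : Fin (r + 2)) 1) = 1 := by
  unfold yd
  rw [Finset.sum_eq_single i]
  · rw [Finsupp.single_eq_same]
  · intro j _ hj
    rw [Finsupp.single_apply, if_neg]
    intro h
    exact hj (Fin.succ_injective _ (Fin.succ_injective _ h)).symm
  · intro h
    exact absurd (Finset.mem_univ i) h

lemma one_ne (i : Fin r) : (i.succ.succ : Fin (r + 2)) ≠ 1 := by
  rw [show (1 : Fin (r + 2)) = (0 : Fin (r + 1)).succ from rfl]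
  intro h
  exact (Fin.succ_ne_zero i) (Fin.succ_injective _ h)

lemma ax_s0 (n : ℕ) : ax (Finsupp.single (0 : Fin (r + 2)) n) = n := by
  unfold ax
  rw [Finsupp.single_eq_same, Finsupp.single_apply, if_neg (by simp), add_zero]

lemma ax_s1 (n : ℕ) : ax (Finsupp.single (1 : Fin (r + 2)) n) = n := by
  unfold ax
  rw [Finsupp.single_eq_same, Finsupp.single_apply, if_neg (by simp), zero_add]

lemma ax_s2 (i : Fin r) : ax (Finsupp.single (i.succ.succ : Fin (r + 2)) 1) = 0 := by
  unfold ax
  rw [Finsupp.single_apply, Finsupp.single_apply, if_neg (Fin.succ_ne_zero _), if_neg (one_ne i),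
    add_zero]

lemma bx_s0 (n : ℕ) : bx (Finsupp.single (0 : Fin (r + 2)) n) = 0 := by
  unfold bx
  rw [yd_s0, Finsupp.single_apply, if_neg (by simp)]

lemma bx_s1 (n : ℕ) : bx (Finsupp.single (1 : Fin (r + 2)) n) = n := by
  unfold bx
  rw [yd_s1, Finsupp.single_eq_same, add_zero]

lemma bx_s2 (i : Fin r) : bx (Finsupp.single (i.succ.succ : Fin (r + 2)) 1) = 1 := by
  unfold bx
  rw [yd_s2, Finsupp.single_apply, if_neg (one_ne i)]

/-- the value of the monomial at the point -/
def Pv {T : Type u} [CommRing T] (β : Fin r → T) (u : Fin (r + 2) →₀ ℕ) : T :=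
  ∏ i : Fin r, (-β i) ^ (u i.succ.succ)

lemma Pv_add {T : Type u} [CommRing T] (β : Fin r → T) (u v : Fin (r + 2) →₀ ℕ) :
    Pv β (u + v) = Pv β u * Pv β v := by
  unfold Pv
  rw [← Finset.prod_mul_distrib]
  apply Finset.prod_congr rfl
  intro i _
  rw [Finsupp.add_apply, pow_add]

lemma Pv_of_yd {T : Type u} [CommRing T] (β : Fin r → T) (u : Fin (r + 2) →₀ ℕ) (h : yd u = 0) :
    Pv β u = 1 := by
  unfold Pv
  apply Finset.prod_eq_one
  intro i _
  have h1 : u i.succ.succ = 0 := (Finset.sum_eq_zero_iff.mp h) i (Finset.mem_univ i)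
  rw [h1, pow_zero]

lemma Pv_s2 {T : Type u} [CommRing T] (β : Fin r → T) (i : Fin r) :
    Pv β (Finsupp.single (i.succ.succ : Fin (r + 2)) 1) = -β i := by
  unfold Pv
  rw [Finset.prod_eq_single i]
  · rw [Finsupp.single_eq_same, pow_one]
  · intro j _ hj
    rw [Finsupp.single_apply, if_neg, pow_zero]
    intro h
    exact hj (Fin.succ_injective _ (Fin.succ_injective _ h)).symm
  · intro h
    exact absurd (Finset.mem_univ i) h

/-- the exponent vector of `x^(a-b) z^b` -/
noncomputable def bs (a b : ℕ) : Fin (r + 2) →₀ ℕ :=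
  Finsupp.single 0 (a - b) + Finsupp.single 1 b

lemma eq_bs (u : Fin (r + 2) →₀ ℕ) (h : yd u = 0) : u = bs (ax u) (bx u) := by
  have hb : bx u = u 1 := by unfold bx; rw [h, add_zero]
  have ha : ax u - u 1 = u 0 := by unfold ax; omega
  ext j
  rw [hb]
  unfold bs
  rw [ha, Finsupp.add_apply]
  refine Fin.cases ?_ (fun j => Fin.cases ?_ (fun i => ?_) j) j
  · rw [Finsupp.single_eq_same, Finsupp.single_apply, if_neg (by simp), add_zero]
  · rw [show (0 : Fin (r + 1)).succ = (1 : Fin (r + 2)) from rfl]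
    rw [Finsupp.single_eq_same, Finsupp.single_apply, if_neg (by simp), zero_add]
  · rw [Finsupp.single_apply, Finsupp.single_apply, if_neg (Fin.succ_ne_zero _).symm,
      if_neg (one_ne i).symm]
    exact (Finset.sum_eq_zero_iff.mp h) i (Finset.mem_univ i)

end

section
variable {T : Type u} [CommRing T] {r m : ℕ} {β : Fin r → T}
  {J : Ideal (MvPolynomial (Fin (r + 2)) T)}

lemma red (hG : Gens m β J) : ∀ (n : ℕ) (u : Fin (r + 2) →₀ ℕ), yd u = n → m ≤ ax u →
    ax u ≤ 2 * m - 1 → bx u ≤ m →
    monomial u (1 : T) - C (Pv β u) * monomial (bs (ax u) (bx u)) 1 ∈ J := by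
  intro n
  induction n with
  | zero =>
    intro u hu _ _ _
    rw [Pv_of_yd β u hu, C_1, one_mul, ← eq_bs u hu, sub_self]
    exact J.zero_mem
  | succ n ih =>
    intro u hu ha1 ha2 hb
    obtain ⟨i, hi⟩ : ∃ i : Fin r, u i.succ.succ ≠ 0 := by
      by_contra hcon
      push Not at hcon
      have : yd u = 0 := Finset.sum_eq_zero fun i _ => hcon i
      omega
    have h0 : 1 ≤ u 0 := by
      have e1 : ax u = u 0 + u 1 := rfl
      have e2 : bx u = u 1 + yd u := rfl
      omega
    obtain ⟨v, hv⟩ : ∃ v : Fin (r + 2) →₀ ℕ,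
        u = v + (Finsupp.single 0 1 + Finsupp.single i.succ.succ 1) := by
      refine ⟨u - (Finsupp.single 0 1 + Finsupp.single i.succ.succ 1), ?_⟩
      rw [tsub_add_cancel_of_le]
      intro j
      rw [Finsupp.add_apply, Finsupp.single_apply, Finsupp.single_apply]
      by_cases hj : (0 : Fin (r + 2)) = j
      · subst hj
        rw [if_pos rfl, if_neg (Fin.succ_ne_zero _), add_zero]
        exact h0
      · rw [if_neg hj, zero_add]
        split_ifs with h2
        · subst h2
          omega
        · exact Nat.zero_le _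
    have hax : ax u = ax v + 1 := by
      rw [hv, ax_add, ax_add, ax_s0, ax_s2]
    have hbx : bx u = bx v + 1 := by
      rw [hv, bx_add, bx_add, bx_s0, bx_s2]
    have hyd : yd u = yd v + 1 := by
      rw [hv, yd_add, yd_add, yd_s0, yd_s2]
    have hPv : Pv β u = Pv β v * (-β i) := by
      rw [hv, Pv_add, Pv_add, Pv_of_yd β _ (yd_s0 1), Pv_s2, one_mul]
    have hax' : ax (v + Finsupp.single 1 1) = ax u := by rw [ax_add, ax_s1, hax]
    have hbx' : bx (v + Finsupp.single 1 1) = bx u := by rw [bx_add, bx_s1, hbx]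
    have hyd' : yd (v + Finsupp.single 1 1) = n := by rw [yd_add, yd_s1]; omega
    have hPv' : Pv β (v + Finsupp.single 1 1) = Pv β v := by
      rw [Pv_add, Pv_of_yd β _ (yd_s1 1), mul_one]
    have h1 := ih (v + Finsupp.single 1 1) hyd' (by rw [hax']; exact ha1) (by rw [hax']; exact ha2)
      (by rw [hbx']; exact hb)
    rw [hax', hbx', hPv'] at h1
    have h2 := hG.2.2 v i (by omega) (by omega) (by omega)
    have h3 := J.sub_mem h2 (J.mul_mem_left (C (β i)) h1)
    have e1 : monomial u (1 : T) = monomial v 1 * (X 0 * X i.succ.succ) := by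
      rw [hv, X, X, monomial_mul, monomial_mul, mul_one, mul_one]
    have e2 : monomial (v + Finsupp.single 1 1) (1 : T) = monomial v 1 * X 1 := by
      rw [X, monomial_mul, mul_one]
    rw [e2] at h3
    rw [e1, hPv, map_mul, map_neg]
    convert h3 using 1
    ring

lemma one_mem_mul {u : Fin (r + 2) →₀ ℕ} (h : monomial u (1 : T) ∈ J) (c : T) :
    monomial u c ∈ J := by
  have h1 := J.mul_mem_left (C c) h
  rwa [C_mul_monomial, mul_one] at h1

lemma prod_pt (β : Fin r → T) (u : Fin (r + 2) →₀ ℕ) :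
    (u.prod fun i k => pt β i ^ k) = Pv β u := by
  rw [Finsupp.prod_fintype _ _ (fun i => pow_zero _), Fin.prod_univ_succ, Fin.prod_univ_succ]
  have e0 : pt β 0 = 1 := rfl
  have e1 : pt β (0 : Fin (r + 1)).succ = 1 := rfl
  have e2 : ∀ i : Fin r, pt β i.succ.succ = -β i := fun i => rfl
  rw [e0, e1, one_pow, one_pow, one_mul, one_mul]
  unfold Pv
  apply Finset.prod_congr rfl
  intro i _
  rw [e2]

lemma fn_inr (hWE : St_WE) (F : MvPolynomial (Fin (r + 2)) T) (p : Fin m) (q : Fin (m + 1)) :
    fn m β (Sum.inr (p, q)) F =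
      ∑ u ∈ F.support with (ax u, bx u) = (m + (p : ℕ), (q : ℕ)), coeff u F * Pv β u := by
  classical
  change aeval (pt β) (weightedHomogeneousComponent (wt r)
    (((m + (p : ℕ) : ℕ) : ℤ), ((q : ℕ) : ℤ)) F) = _
  rw [weightedHomogeneousComponent_apply, map_sum]
  refine Finset.sum_congr ?_ ?_
  · ext u
    rw [Finset.mem_filter, Finset.mem_filter, hWE, Prod.mk.injEq, Prod.mk.injEq, Nat.cast_inj,
      Nat.cast_inj]
  · intro u _
    rw [aeval_monomial, prod_pt]
    rfl

end

/-- SP -/
theorem t_SP (hWE : St_WE) : St_SP.{u} := by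
  intro T _ r m β hm I J hI hG F hF
  rw [hI] at hF
  classical
  let g : (Fin (r + 2) →₀ ℕ) → MvPolynomial (Fin (r + 2)) T := fun u =>
    if m ≤ ax u ∧ ax u ≤ 2 * m - 1 ∧ bx u ≤ m then
      C (coeff u F * Pv β u) * monomial (bs (ax u) (bx u)) 1 else 0
  have h1 : ∀ u ∈ F.support, monomial u (coeff u F) - g u ∈ J := by
    intro u _
    by_cases hc : m ≤ ax u ∧ ax u ≤ 2 * m - 1 ∧ bx u ≤ m
    · have e : g u = C (coeff u F * Pv β u) * monomial (bs (ax u) (bx u)) 1 := if_pos hc
      rw [e]
      have h2 := J.mul_mem_left (C (coeff u F)) (red hG _ u rfl hc.1 hc.2.1 hc.2.2)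
      rw [mul_sub, C_mul_monomial, mul_one, ← mul_assoc, ← map_mul] at h2
      exact h2
    · have e : g u = 0 := if_neg hc
      rw [e, sub_zero]
      by_cases h3 : 2 * m ≤ ax u ∨ m < bx u
      · exact one_mem_mul (hG.1 u h3) _
      by_cases h4 : m ≤ yd u
      · exact one_mem_mul (hG.2.1 u h4) _
      rw [not_or] at h3
      have h5 : ax u < m := by
        by_contra h6
        apply hc
        refine ⟨by omega, by omega, by omega⟩
      have e1 : ax u = u 0 + u 1 := rfl
      have e2 : bx u = u 1 + yd u := rfl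
      have hlt : ∀ j, u j < 2 * m := by
        intro j
        refine Fin.cases ?_ (fun j => Fin.cases ?_ (fun i => ?_) j) j
        · omega
        · rw [show (0 : Fin (r + 1)).succ = (1 : Fin (r + 2)) from rfl]
          omega
        · have h7 : u i.succ.succ ≤ yd u :=
            Finset.single_le_sum (f := fun i : Fin r => u i.succ.succ) (fun _ _ => Nat.zero_le _)
              (Finset.mem_univ i)
          omega
      let w : Ix1 r m := ⟨fun j => ⟨u j, hlt j⟩, by
        change u 0 + u 1 < m
        omega, by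
        change u 1 + yd u ≤ m
        omega, by
        change yd u < m
        omega⟩
      have hw : toE w = u := by
        ext j
        rfl
      have h8 : fn m β (Sum.inl w) F = 0 := hF _
      have h9 : coeff (toE w) F = 0 := h8
      rw [hw] at h9
      rw [h9, monomial_zero]
      exact J.zero_mem
  have h2 : ∑ u ∈ F.support, g u = 0 := by
    rw [← Finset.sum_fiberwise_of_maps_to (t := F.support.image fun u => (ax u, bx u))
      (g := fun u => (ax u, bx u)) (fun u hu => Finset.mem_image_of_mem _ hu)]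
    apply Finset.sum_eq_zero
    rintro ⟨a, b⟩ _
    by_cases hc : m ≤ a ∧ a ≤ 2 * m - 1 ∧ b ≤ m
    · have h3 : ∀ u ∈ F.support.filter (fun u => (ax u, bx u) = (a, b)),
          g u = C (coeff u F * Pv β u) * monomial (bs a b) 1 := by
        intro u hu
        have h4 := (Finset.mem_filter.mp hu).2
        rw [Prod.mk.injEq] at h4
        have h5 : g u = C (coeff u F * Pv β u) * monomial (bs (ax u) (bx u)) 1 := by
          apply if_pos
          rw [h4.1, h4.2]
          exact hc
        rw [h5, h4.1, h4.2]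
      rw [Finset.sum_congr rfl h3, ← Finset.sum_mul, ← map_sum]
      have h6 := hF (Sum.inr (⟨a - m, by omega⟩, ⟨b, by omega⟩))
      rw [fn_inr hWE] at h6
      have h7 : m + (a - m) = a := by omega
      simp only [h7] at h6
      rw [h6, map_zero, zero_mul]
    · apply Finset.sum_eq_zero
      intro u hu
      have h4 := (Finset.mem_filter.mp hu).2
      rw [Prod.mk.injEq] at h4
      apply if_neg
      rw [h4.1, h4.2]
      exact hc
  have h3 : F = ∑ u ∈ F.support, (monomial u (coeff u F) - g u) := by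
    rw [Finset.sum_sub_distrib, h2, sub_zero, support_sum_monomial_coeff]
  rw [h3]
  exact J.sum_mem h1

end Pool.Agent.Y151.FP
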